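import Mathlib

/-!
The GGS `p`-group with defining vector `(1, 0, .., 0, -1)` (`p` an odd prime; for `p = 3` the
Gupta-Sidki 3-group) acting on finite words over `ZMod p`, and the proof
that all its elements have `p`-power order.
-/

set_option autoImplicit false

namespace Pool.Agent.MaxSubP

variable {p : ℕ}

/-- add `i` to the first letter -/
def addHd (i : ZMod p) : List (ZMod p) → List (ZMod p)
  | [] => []
  | x :: l => (x + i) :: l

/-- the `e`-th power of the directed generator `b = (b, a, 1, .., 1, a⁻¹)`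
(sections at the letters `0, 1, .., -1`) -/
def act (e : ZMod p) : List (ZMod p) → List (ZMod p)
  | [] => []
  | x :: l => x :: (if x = 0 then act e l else if x = 1 then addHd e l
      else if x = -1 then addHd (-e) l else l)

theorem addHd_addHd (i j : ZMod p) (l : List (ZMod p)) :
    addHd i (addHd j l) = addHd (i + j) l := by
  cases l with
  | nil => rfl
  | cons x l => simp only [addHd]; rw [add_assoc, add_comm j i]

theorem addHd_zero (l : List (ZMod p)) : addHd 0 l = l := by
  cases l with
  | nil => rfl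
  | cons x l => simp [addHd]

theorem act_act (e f : ZMod p) (l : List (ZMod p)) : act e (act f l) = act (e + f) l := by
  induction l with
  | nil => rfl
  | cons x l ih =>
    simp only [act]
    congr 1
    split_ifs
    · exact ih
    · exact addHd_addHd _ _ _
    · rw [addHd_addHd, neg_add]
    · rfl

theorem act_zero (l : List (ZMod p)) : act 0 l = l := by
  induction l with
  | nil => rfl
  | cons x l ih =>
    simp only [act]
    congr 1
    split_ifs
    · exact ih
    · exact addHd_zero _
    · rw [neg_zero, addHd_zero]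
    · rfl

theorem length_addHd (i : ZMod p) (l : List (ZMod p)) : (addHd i l).length = l.length := by
  cases l <;> rfl

theorem length_act (e : ZMod p) (l : List (ZMod p)) : (act e l).length = l.length := by
  induction l with
  | nil => rfl
  | cons x l ih =>
    simp only [act, List.length_cons]
    congr 1
    split_ifs
    · exact ih
    · exact length_addHd _ _
    · exact length_addHd _ _
    · rfl

/-- permutations of the set of finite words -/
abbrev T (p : ℕ) := Equiv.Perm (List (ZMod p))

/-- `a ^ i` -/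
def Ai (i : ZMod p) : T p :=
  ⟨addHd i, addHd (-i), fun l => by rw [addHd_addHd, neg_add_cancel, addHd_zero],
    fun l => by rw [addHd_addHd, add_neg_cancel, addHd_zero]⟩

/-- `b ^ e` -/
def Be (e : ZMod p) : T p :=
  ⟨act e, act (-e), fun l => by rw [act_act, neg_add_cancel, act_zero],
    fun l => by rw [act_act, add_neg_cancel, act_zero]⟩

theorem Ai_apply (i : ZMod p) (l : List (ZMod p)) : Ai i l = addHd i l := rfl
theorem Be_apply (e : ZMod p) (l : List (ZMod p)) : Be e l = act e l := rfl

theorem Ai_mul (i j : ZMod p) : Ai i * Ai j = Ai (i + j) := Equiv.ext fun l => addHd_addHd i j l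
theorem Be_mul (e f : ZMod p) : Be e * Be f = Be (e + f) := Equiv.ext fun l => act_act e f l
theorem Ai_zero : Ai (0 : ZMod p) = 1 := Equiv.ext addHd_zero
theorem Be_zero : Be (0 : ZMod p) = 1 := Equiv.ext act_zero

def iotaFun (F : ZMod p → List (ZMod p) → List (ZMod p)) : List (ZMod p) → List (ZMod p)
  | [] => []
  | x :: l => x :: F x l

/-- the permutation with sections `F x` -/
def iota (F : ZMod p → T p) : T p :=
  ⟨iotaFun fun x => F x, iotaFun fun x => (F x).symm,
    fun l => by cases l <;> simp [iotaFun], fun l => by cases l <;> simp [iotaFun]⟩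

theorem iota_nil (F : ZMod p → T p) : iota F [] = [] := rfl
theorem iota_cons (F : ZMod p → T p) (x : ZMod p) (l : List (ZMod p)) :
    iota F (x :: l) = x :: F x l := rfl

theorem iota_mul (F G : ZMod p → T p) : iota F * iota G = iota fun x => F x * G x := by
  apply Equiv.ext
  intro l
  cases l with
  | nil => rfl
  | cons x l => rfl

theorem iota_one : iota (fun _ => (1 : T p)) = 1 := by
  apply Equiv.ext
  intro l
  cases l with
  | nil => rfl
  | cons x l => rfl

theorem iota_pow (F : ZMod p → T p) (n : ℕ) : iota F ^ n = iota fun x => F x ^ n := by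
  induction n with
  | zero => simp only [pow_zero]; exact iota_one.symm
  | succ n ih => simp only [pow_succ]; rw [ih, iota_mul]

theorem Ai_mul_iota (i : ZMod p) (F : ZMod p → T p) :
    Ai i * iota F = iota (fun x => F (x - i)) * Ai i := by
  apply Equiv.ext
  intro l
  cases l with
  | nil => rfl
  | cons x l =>
    change (x + i) :: F x l = (x + i) :: F (x + i - i) l
    rw [add_sub_cancel_right]

/-- the sections of `b ^ e` -/
def sec (e x : ZMod p) : T p :=
  if x = 0 then Be e else if x = 1 then Ai e else if x = -1 then Ai (-e) else 1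

theorem Be_eq (e : ZMod p) : Be e = iota (sec e) := by
  apply Equiv.ext
  intro l
  cases l with
  | nil => rfl
  | cons x l =>
    rw [Be_apply, iota_cons]
    simp only [act, sec]
    congr 1
    split_ifs <;> rfl

theorem sec_mul (e f x : ZMod p) : sec e x * sec f x = sec (e + f) x := by
  unfold sec
  split_ifs
  · exact Be_mul e f
  · exact Ai_mul e f
  · rw [Ai_mul, neg_add]
  · rfl

theorem sec_zero (x : ZMod p) : sec 0 x = 1 := by
  unfold sec
  split_ifs
  · exact Be_zero
  · exact Ai_zero
  · rw [neg_zero]; exact Ai_zero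
  · rfl

/-- the conjugate of `b ^ e` by `a ^ y` -/
def Bc (y e : ZMod p) : T p := iota fun x => sec e (x - y)

theorem Bc_mul (y e f : ZMod p) : Bc y e * Bc y f = Bc y (e + f) := by
  unfold Bc
  rw [iota_mul]
  congr 1
  funext x
  exact sec_mul _ _ _

theorem Bc_zero (y : ZMod p) : Bc y 0 = 1 := by
  unfold Bc
  rw [← iota_one]
  congr 1
  funext x
  exact sec_zero _

theorem Bc_at_zero (e : ZMod p) : Bc 0 e = Be e := by
  rw [Be_eq]
  unfold Bc
  congr 1
  funext x
  rw [sub_zero]

theorem Ai_mul_Bc (i y e : ZMod p) : Ai i * Bc y e = Bc (y + i) e * Ai i := by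
  unfold Bc
  rw [Ai_mul_iota]
  congr 2
  funext x
  congr 1
  ring

theorem Bc_pow (y e : ZMod p) (n : ℕ) : Bc y e ^ n = Bc y (n * e) := by
  induction n with
  | zero => simp [Bc_zero]
  | succ n ih => rw [pow_succ, ih, Bc_mul]; congr 1; push_cast; ring

/-! ### torsion -/

/-- some `p`-power of `g` is trivial -/
def Tors (p : ℕ) {G : Type*} [Group G] (g : G) : Prop := ∃ m : ℕ, g ^ (p ^ m) = 1

theorem pow_eq_one_of_le {G : Type*} [Group G] {g : G} {m n : ℕ} (h : g ^ (p ^ m) = 1)
    (hmn : m ≤ n) : g ^ (p ^ n) = 1 := by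
  obtain ⟨k, rfl⟩ := Nat.exists_eq_add_of_le hmn
  rw [pow_add, pow_mul, h, one_pow]

theorem Tors.of_pow {G : Type*} [Group G] {g : G} (h : Tors p (g ^ p)) : Tors p g := by
  obtain ⟨m, hm⟩ := h
  refine ⟨m + 1, ?_⟩
  rw [pow_succ', pow_mul]
  exact hm

theorem Tors.iota [NeZero p] {F : ZMod p → T p} (h : ∀ x, Tors p (F x)) :
    Tors p (iota F) := by
  choose m hm using h
  refine ⟨∑ x, m x, ?_⟩
  rw [iota_pow, ← iota_one]
  congr 1
  funext x
  exact pow_eq_one_of_le (hm x)
    (Finset.single_le_sum (f := m) (fun _ _ => Nat.zero_le _) (Finset.mem_univ x))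

/-- `Len g n k`: `g` is a product of powers of `a` and `b` with `n` factors `b ^ e` and total
exponent `k` of `a` -/
inductive Len : T p → ℕ → ZMod p → Prop
  | one : Len 1 0 0
  | a {g : T p} {n : ℕ} {k : ZMod p} (i : ZMod p) : Len g n k → Len (Ai i * g) n (i + k)
  | b {g : T p} {n : ℕ} {k : ZMod p} (e : ZMod p) : Len g n k → Len (Be e * g) (n + 1) k

theorem Len.cast {g g' : T p} {n n' : ℕ} {k k' : ZMod p} (h : Len g n k) (hg : g = g')
    (hn : n = n') (hk : k = k') : Len g' n' k' := by
  subst hg hn hk
  exact h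

theorem Len.mul {g h : T p} {n m : ℕ} {k l : ZMod p} (hg : Len g n k) (hh : Len h m l) :
    Len (g * h) (n + m) (k + l) := by
  induction hg with
  | one => exact hh.cast (one_mul h).symm (zero_add m).symm (zero_add l).symm
  | a i _ ih => exact (Len.a i ih).cast (mul_assoc _ _ _).symm rfl (add_assoc _ _ _).symm
  | b e _ ih => exact (Len.b e ih).cast (mul_assoc _ _ _).symm (by ring) rfl

theorem Len.mono {g : T p} {n m : ℕ} {k : ZMod p} (hg : Len g n k) (h : n ≤ m) : Len g m k := by
  induction h with
  | refl => exact hg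
  | step _ ih => exact (Len.b 0 ih).cast (by rw [Be_zero, one_mul]) rfl rfl

theorem Len.ai (i : ZMod p) : Len (Ai i) 0 i :=
  (Len.a i Len.one).cast (mul_one _) rfl (add_zero _)

theorem Len.be (e : ZMod p) : Len (Be e) 1 0 :=
  (Len.b e Len.one).cast (mul_one _) rfl rfl

def cs (x : ZMod p) : ℕ := if x = 0 then 1 else 0
def ks (e x : ZMod p) : ZMod p := if x = 1 then e else if x = -1 then -e else 0

section
variable [hp : Fact p.Prime] (h2 : p ≠ 2)

include hp h2

theorem one_ne_neg_one : (1 : ZMod p) ≠ -1 := by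
  intro h
  have h3 : ((2 : ℕ) : ZMod p) = 0 := by
    push_cast
    linear_combination h
  rw [ZMod.natCast_eq_zero_iff] at h3
  exact h2 ((Nat.prime_dvd_prime_iff_eq hp.1 Nat.prime_two).1 h3)

omit h2 in
theorem zero_ne_neg_one : (0 : ZMod p) ≠ -1 := by
  intro h
  have : (1 : ZMod p) = 0 := by linear_combination h
  exact one_ne_zero this

omit h2 in
theorem len_sec (e x : ZMod p) : Len (sec e x) (cs x) (ks e x) := by
  unfold sec cs ks
  by_cases h0 : x = 0
  · subst h0
    rw [if_pos rfl, if_pos rfl, if_neg (zero_ne_one), if_neg zero_ne_neg_one]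
    exact Len.be e
  · rw [if_neg h0, if_neg h0]
    by_cases h1 : x = 1
    · rw [if_pos h1, if_pos h1]
      exact Len.ai e
    · rw [if_neg h1, if_neg h1]
      by_cases h3 : x = -1
      · rw [if_pos h3, if_pos h3]
        exact Len.ai (-e)
      · rw [if_neg h3, if_neg h3]
        exact Len.one

omit h2 in
theorem sum_cs : ∑ x : ZMod p, cs x = 1 := by
  unfold cs
  rw [Finset.sum_ite_eq' Finset.univ (0 : ZMod p) (fun _ => 1)]
  simp

theorem sum_ks (e : ZMod p) : ∑ x : ZMod p, ks e x = 0 := by
  have h : ∀ x : ZMod p, ks e x = (if x = 1 then e else 0) + (if x = -1 then -e else 0) := by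
    intro x
    unfold ks
    by_cases h1 : x = 1
    · rw [if_pos h1, if_pos h1, if_neg, add_zero]
      rw [h1]; exact one_ne_neg_one h2
    · rw [if_neg h1, if_neg h1, zero_add]
  rw [Finset.sum_congr rfl (fun x _ => h x), Finset.sum_add_distrib,
    Finset.sum_ite_eq' Finset.univ (1 : ZMod p) (fun _ => e),
    Finset.sum_ite_eq' Finset.univ (-1 : ZMod p) (fun _ => -e)]
  simp

/-- decomposition on the first level -/
theorem dec0 {g : T p} {n : ℕ} {k : ZMod p} (h : Len g n k) :
    ∃ (F : ZMod p → T p) (c : ZMod p → ℕ) (κ : ZMod p → ZMod p), g = iota F * Ai k ∧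
      (∀ x, Len (F x) (c x) (κ x)) ∧ ∑ x, c x = n ∧ ∑ x, κ x = 0 := by
  induction h with
  | one =>
    refine ⟨fun _ => 1, fun _ => 0, fun _ => 0, ?_, fun _ => Len.one, by simp, by simp⟩
    rw [iota_one, Ai_zero, one_mul]
  | @a g n k i _ ih =>
    obtain ⟨F, c, κ, hg, hF, hc, hκ⟩ := ih
    refine ⟨fun x => F (x - i), fun x => c (x - i), fun x => κ (x - i), ?_, fun x => hF _, ?_, ?_⟩
    · rw [hg, ← mul_assoc, Ai_mul_iota, mul_assoc, Ai_mul]
    · rw [← hc]; exact (Equiv.subRight i).sum_comp c
    · rw [← hκ]; exact (Equiv.subRight i).sum_comp κ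
  | @b g n k e _ ih =>
    obtain ⟨F, c, κ, hg, hF, hc, hκ⟩ := ih
    refine ⟨fun x => sec e x * F x, fun x => cs x + c x, fun x => ks e x + κ x, ?_,
      fun x => (len_sec e x).mul (hF x), ?_, ?_⟩
    · rw [hg, ← mul_assoc, Be_eq, iota_mul]
    · rw [Finset.sum_add_distrib, sum_cs, hc, add_comm]
    · rw [Finset.sum_add_distrib, sum_ks h2, hκ, add_zero]

omit h2 in
/-- either all factors `b ^ e` are conjugated by the same power of `a`, or they are distributed
to several letters -/
theorem dec1 {g : T p} {n : ℕ} {k : ZMod p} (h : Len g n k) :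
    (∃ y e : ZMod p, g = Bc y e * Ai k ∧ (e = 0 ∨ 1 ≤ n)) ∨
    (∃ (F : ZMod p → T p) (c : ZMod p → ℕ) (κ : ZMod p → ZMod p), g = iota F * Ai k ∧
      (∀ x, Len (F x) (c x) (κ x)) ∧ ∀ x, c x < n) := by
  induction h with
  | one => exact Or.inl ⟨0, 0, by rw [Bc_zero, Ai_zero, one_mul], Or.inl rfl⟩
  | @a g n k i _ ih =>
    rcases ih with ⟨y, e, hg, he⟩ | ⟨F, c, κ, hg, hF, hc⟩
    · refine Or.inl ⟨y + i, e, ?_, he⟩
      rw [hg, ← mul_assoc, Ai_mul_Bc, mul_assoc, Ai_mul]
    · refine Or.inr ⟨fun x => F (x - i), fun x => c (x - i), fun x => κ (x - i), ?_,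
        fun x => hF _, fun x => hc _⟩
      rw [hg, ← mul_assoc, Ai_mul_iota, mul_assoc, Ai_mul]
  | @b g n k f _ ih =>
    rcases ih with ⟨y, e, hg, he⟩ | ⟨F, c, κ, hg, hF, hc⟩
    · by_cases hy : y = 0
      · subst hy
        refine Or.inl ⟨0, f + e, ?_, Or.inr (by omega)⟩
        rw [hg, ← mul_assoc, ← Bc_at_zero, Bc_mul]
      · by_cases he0 : e = 0
        · subst he0
          refine Or.inl ⟨0, f, ?_, Or.inr (by omega)⟩
          rw [hg, Bc_zero, one_mul, Bc_at_zero]
        · have hn : 1 ≤ n := he.resolve_left he0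
          refine Or.inr ⟨fun x => sec f x * sec e (x - y), fun x => cs x + cs (x - y),
            fun x => ks f x + ks e (x - y), ?_,
            fun x => (len_sec f x).mul (len_sec e _), ?_⟩
          · rw [hg, ← mul_assoc, Be_eq, Bc, iota_mul]
          · intro x
            have hx : cs x + cs (x - y) ≤ 1 := by
              unfold cs
              by_cases h0 : x = 0
              · have h1 : x - y ≠ 0 := by
                  intro h; apply hy; rw [h0] at h; simpa using h
                rw [if_pos h0, if_neg h1]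
              · rw [if_neg h0]
                split_ifs <;> omega
            change cs x + cs (x - y) < n + 1
            omega
    · refine Or.inr ⟨fun x => sec f x * F x, fun x => cs x + c x, fun x => ks f x + κ x, ?_,
        fun x => (len_sec f x).mul (hF x), fun x => ?_⟩
      · rw [hg, ← mul_assoc, Be_eq, iota_mul]
      · have h1 : cs x ≤ 1 := by unfold cs; split_ifs <;> omega
        have h3 := hc x
        change cs x + c x < n + 1
        omega

omit h2 in
theorem sum_shift {M : Type*} [AddCommMonoid M] (f : ZMod p → M) (x k : ZMod p) (hk : k ≠ 0) :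
    ∑ i ∈ Finset.range p, f (x - (i : ZMod p) * k) = ∑ y, f y := by
  have h1 : ∑ i ∈ Finset.range p, f (x - (i : ZMod p) * k) = ∑ y : ZMod p, f (x - y * k) := by
    refine Finset.sum_bij' (fun i _ => (i : ZMod p)) (fun y _ => y.val) ?_ ?_ ?_ ?_ ?_
    · intro i _; exact Finset.mem_univ _
    · intro y _; exact Finset.mem_range.2 (ZMod.val_lt y)
    · intro i hi; exact ZMod.val_cast_of_lt (Finset.mem_range.1 hi)
    · intro y _; exact ZMod.natCast_zmod_val y
    · intro i _; rfl
  rw [h1]
  have hinj : Function.Injective fun y : ZMod p => x - y * k := by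
    intro y z hyz
    have h3 : (z - y) * k = 0 := by
      have h4 : x - y * k = x - z * k := hyz
      linear_combination h4
    rcases mul_eq_zero.1 h3 with h | h
    · exact (sub_eq_zero.1 h).symm
    · exact absurd h hk
  exact (Finite.injective_iff_bijective.1 hinj).sum_comp f

omit h2 in
/-- the powers of `iota F * Ai k` -/
theorem pow_dec (F : ZMod p → T p) (c : ZMod p → ℕ) (κ : ZMod p → ZMod p) (k : ZMod p)
    (hF : ∀ x, Len (F x) (c x) (κ x)) (j : ℕ) :
    ∃ F' : ZMod p → T p, (iota F * Ai k) ^ j = iota F' * Ai ((j : ZMod p) * k) ∧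
      ∀ x, Len (F' x) (∑ i ∈ Finset.range j, c (x - (i : ZMod p) * k))
        (∑ i ∈ Finset.range j, κ (x - (i : ZMod p) * k)) := by
  induction j with
  | zero =>
    refine ⟨fun _ => 1, ?_, fun x => ?_⟩
    · rw [pow_zero, iota_one, Nat.cast_zero, zero_mul, Ai_zero, one_mul]
    · simpa using Len.one
  | succ j ih =>
    obtain ⟨F', h1, h3⟩ := ih
    refine ⟨fun x => F x * F' (x - k), ?_, fun x => ?_⟩
    · rw [pow_succ', h1, mul_assoc, ← mul_assoc (Ai k), Ai_mul_iota, mul_assoc, Ai_mul,
        ← mul_assoc, iota_mul]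
      congr 2
      push_cast; ring
    · refine ((hF x).mul (h3 (x - k))).cast rfl ?_ ?_
      · rw [Finset.sum_range_succ', add_comm]
        congr 1
        · refine Finset.sum_congr rfl fun i _ => ?_
          congr 1; push_cast; ring
        · simp
      · rw [Finset.sum_range_succ', add_comm]
        congr 1
        · refine Finset.sum_congr rfl fun i _ => ?_
          congr 1; push_cast; ring
        · simp

/-- all products of powers of `a` and `b` are torsion -/
theorem tors_of_len : ∀ (n : ℕ) (g : T p) (k : ZMod p), Len g n k → Tors p g := by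
  intro n
  induction n using Nat.strong_induction_on with
  | _ n IH =>
    have hzero : ∀ g : T p, Len g n 0 → Tors p g := by
      intro g hg
      rcases dec1 hg with ⟨y, e, rfl, -⟩ | ⟨F, c, κ, rfl, hF, hc⟩
      · rw [Ai_zero, mul_one]
        refine ⟨1, ?_⟩
        rw [pow_one, Bc_pow, CharP.cast_eq_zero, zero_mul, Bc_zero]
      · rw [Ai_zero, mul_one]
        exact Tors.iota fun x => IH (c x) (hc x) (F x) (κ x) (hF x)
    intro g k hg
    by_cases hk : k = 0
    · subst hk; exact hzero g hg
    obtain ⟨F, c, κ, rfl, hF, hc, hκ⟩ := dec0 h2 hg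
    obtain ⟨F', h1, h3⟩ := pow_dec F c κ k hF p
    apply Tors.of_pow
    rw [h1, CharP.cast_eq_zero, zero_mul, Ai_zero, mul_one]
    refine Tors.iota fun x => hzero _ ((h3 x).cast rfl ?_ ?_)
    · rw [sum_shift c x k hk, hc]
    · rw [sum_shift κ x k hk, hκ]

end

end Pool.Agent.MaxSubP
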