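import Mathlib
import Pool.Agent.MaxSubP.Tree

/-!
The function `dd` on finite words over `ZMod p` with
`dd w = ∑ i, dd (a ^ i w) + 2⁻¹ * ∑ i, dd (b ^ i w)` for all words ending with `0`.
-/

set_option autoImplicit false

namespace Pool.Agent.MaxSubP

variable {p : ℕ} [hp : Fact p.Prime]

/-- the triple `(D w, Δ w, D (tail w))` -/
def rr : List (ZMod p) → ZMod p × ZMod p × ZMod p
  | [] => (1, 0, 1)
  | x :: l =>
    ((rr l).1 + 2⁻¹ * (if x = 0 then (rr l).2.1 else if x = 1 then (rr l).2.2
        else if x = -1 then (rr l).2.2 else 0),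
      (if x = 0 then (rr l).2.1 else if x = 1 then (rr l).2.2
        else if x = -1 then (rr l).2.2 else 0),
      (rr l).1)

def dd (l : List (ZMod p)) : ZMod p := (rr l).1
def de (l : List (ZMod p)) : ZMod p := (rr l).2.1
def dt (l : List (ZMod p)) : ZMod p := (rr l).2.2

theorem dd_nil : dd ([] : List (ZMod p)) = 1 := rfl
theorem de_nil : de ([] : List (ZMod p)) = 0 := rfl
theorem dt_nil : dt ([] : List (ZMod p)) = 1 := rfl
theorem dt_cons (x : ZMod p) (l : List (ZMod p)) : dt (x :: l) = dd l := rfl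
theorem dd_cons (x : ZMod p) (l : List (ZMod p)) :
    dd (x :: l) = dd l + 2⁻¹ * de (x :: l) := rfl
theorem de_cons (x : ZMod p) (l : List (ZMod p)) :
    de (x :: l) = if x = 0 then de l else if x = 1 then dt l else if x = -1 then dt l else 0 := rfl

theorem dd_eq (l : List (ZMod p)) : dd l = dt l + 2⁻¹ * de l := by
  cases l with
  | nil => rw [dd_nil, dt_nil, de_nil, mul_zero, add_zero]
  | cons x l => rfl

theorem de_zero_cons (l : List (ZMod p)) : de (0 :: l) = de l := by
  rw [de_cons, if_pos rfl]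

theorem de_one_cons (l : List (ZMod p)) : de (1 :: l) = dt l := by
  rw [de_cons, if_neg one_ne_zero, if_pos rfl]

theorem de_neg_cons (l : List (ZMod p)) : de (-1 :: l) = dt l := by
  rw [de_cons, if_neg (neg_ne_zero.2 one_ne_zero), if_pos rfl, ite_self]

theorem sum_const_zmod (c : ZMod p) : ∑ _x : ZMod p, c = 0 := by
  rw [Finset.sum_const, Finset.card_univ, ZMod.card, nsmul_eq_mul, CharP.cast_eq_zero, zero_mul]

section
variable (h2 : p ≠ 2)
include h2

theorem two_mul_inv : (2 : ZMod p) * 2⁻¹ = 1 := by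
  apply mul_inv_cancel₀
  intro h
  have h3 : ((2 : ℕ) : ZMod p) = 0 := by push_cast; exact h
  rw [ZMod.natCast_eq_zero_iff] at h3
  exact h2 ((Nat.prime_dvd_prime_iff_eq hp.1 Nat.prime_two).1 h3)

/-- `∑ y, D (y w) = D w` -/
theorem sum_dd_cons (l : List (ZMod p)) : ∑ y : ZMod p, dd (y :: l) = dd l := by
  have h : ∀ y : ZMod p, dd (y :: l) = dd l + 2⁻¹ * ((if y = 0 then de l else 0) +
      (if y = 1 then dt l else 0) + (if y = -1 then dt l else 0)) := by
    intro y
    rw [dd_cons, de_cons]
    congr 2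
    have hne := one_ne_neg_one (p := p) h2
    have hz := zero_ne_neg_one (p := p)
    by_cases h0 : y = 0
    · subst h0
      rw [if_pos rfl, if_pos rfl, if_neg zero_ne_one, if_neg hz, add_zero, add_zero]
    · rw [if_neg h0, if_neg h0, zero_add]
      by_cases h1 : y = 1
      · subst h1
        rw [if_pos rfl, if_pos rfl, if_neg hne, add_zero]
      · rw [if_neg h1, if_neg h1, zero_add]
  rw [Finset.sum_congr rfl (fun y _ => h y), Finset.sum_add_distrib, sum_const_zmod, zero_add,
    ← Finset.mul_sum, Finset.sum_add_distrib, Finset.sum_add_distrib,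
    Finset.sum_ite_eq' Finset.univ (0 : ZMod p) (fun _ => de l),
    Finset.sum_ite_eq' Finset.univ (1 : ZMod p) (fun _ => dt l),
    Finset.sum_ite_eq' Finset.univ (-1 : ZMod p) (fun _ => dt l)]
  simp only [Finset.mem_univ, if_true]
  rw [dd_eq l]
  have := two_mul_inv h2
  linear_combination (dt l) * this

/-- `∑ i, D (a ^ i (x w)) = D w` -/
theorem sum_dd_addHd (x : ZMod p) (l : List (ZMod p)) :
    ∑ i : ZMod p, dd (addHd i (x :: l)) = dd l := by
  rw [← sum_dd_cons h2 l]
  exact Equiv.sum_comp (Equiv.addLeft x) fun y => dd (y :: l)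

omit h2 in
theorem dt_addHd (i : ZMod p) (l : List (ZMod p)) : dt (addHd i l) = dt l := by
  cases l <;> rfl

omit h2 in
/-- `Δ` is invariant under `b` -/
theorem de_act (e : ZMod p) (l : List (ZMod p)) : de (act e l) = de l := by
  induction l with
  | nil => rfl
  | cons x l ih =>
    rw [act, de_cons, de_cons]
    split_ifs
    · exact ih
    · exact dt_addHd _ _
    · exact dt_addHd _ _
    · rfl

/-- `∑ i, D (b ^ i w) = Δ w` if `w` ends with `0` -/
theorem sum_dd_act (l : List (ZMod p)) :
    ∑ i : ZMod p, dd (act i (l ++ [0])) = de (l ++ [0]) := by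
  induction l with
  | nil =>
    have h : ∀ i : ZMod p, dd (act i ([] ++ [0])) = dd [0] := by
      intro i
      simp [act]
    rw [Finset.sum_congr rfl (fun i _ => h i), sum_const_zmod, List.nil_append, de_zero_cons,
      de_nil]
  | cons x l ih =>
    obtain ⟨y, m, hm⟩ : ∃ y m, l ++ [0] = y :: m := by
      cases l with
      | nil => exact ⟨0, [], rfl⟩
      | cons y l => exact ⟨y, l ++ [0], rfl⟩
    rw [List.cons_append]
    by_cases h0 : x = 0
    · subst h0
      have h : ∀ i : ZMod p, dd (act i (0 :: (l ++ [0]))) =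
          dd (act i (l ++ [0])) + 2⁻¹ * de (l ++ [0]) := by
        intro i
        rw [act, if_pos rfl, dd_cons, de_zero_cons, de_act]
      rw [Finset.sum_congr rfl (fun i _ => h i), Finset.sum_add_distrib, sum_const_zmod, add_zero,
        ih, de_zero_cons]
    by_cases h1 : x = 1
    · subst h1
      have h : ∀ i : ZMod p, dd (act i (1 :: (l ++ [0]))) =
          dd (addHd i (y :: m)) + 2⁻¹ * dd m := by
        intro i
        rw [act, if_neg one_ne_zero, if_pos rfl, dd_cons, de_one_cons, dt_addHd, hm, dt_cons]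
      rw [Finset.sum_congr rfl (fun i _ => h i), Finset.sum_add_distrib, sum_const_zmod, add_zero,
        sum_dd_addHd h2, de_one_cons, hm, dt_cons]
    by_cases h3 : x = -1
    · subst h3
      have h : ∀ i : ZMod p, dd (act i (-1 :: (l ++ [0]))) =
          dd (addHd (-i) (y :: m)) + 2⁻¹ * dd m := by
        intro i
        rw [act, if_neg h0, if_neg h1, if_pos rfl, dd_cons, de_neg_cons, dt_addHd, hm, dt_cons]
      rw [Finset.sum_congr rfl (fun i _ => h i), Finset.sum_add_distrib, sum_const_zmod, add_zero,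
        de_neg_cons, hm, dt_cons, ← sum_dd_addHd h2 y m]
      exact Equiv.sum_comp (Equiv.neg (ZMod p)) fun i => dd (addHd i (y :: m))
    · have h : ∀ i : ZMod p, dd (act i (x :: (l ++ [0]))) = dd (x :: (l ++ [0])) := by
        intro i
        rw [act, if_neg h0, if_neg h1, if_neg h3]
      rw [Finset.sum_congr rfl (fun i _ => h i), sum_const_zmod, de_cons, if_neg h0, if_neg h1,
        if_neg h3]

/-- the fixed point equation -/
theorem dd_fix (l : List (ZMod p)) :
    ∑ i : ZMod p, dd (addHd i (l ++ [0])) + 2⁻¹ * ∑ i : ZMod p, dd (act i (l ++ [0])) =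
      dd (l ++ [0]) := by
  rw [sum_dd_act h2]
  cases l with
  | nil =>
    rw [List.nil_append, sum_dd_addHd h2, dd_cons]
  | cons x l =>
    rw [List.cons_append, sum_dd_addHd h2, dd_cons]

end

/-- `D (0 ^ n) = 1` -/
theorem rr_zeros (n : ℕ) : dd (List.replicate n (0 : ZMod p)) = 1 ∧
    de (List.replicate n (0 : ZMod p)) = 0 := by
  induction n with
  | zero => exact ⟨rfl, rfl⟩
  | succ n ih =>
    rw [List.replicate_succ]
    have h : de (0 :: List.replicate n (0 : ZMod p)) = 0 := by rw [de_zero_cons, ih.2]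
    exact ⟨by rw [dd_cons, h, mul_zero, add_zero, ih.1], h⟩

end Pool.Agent.MaxSubP
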