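import Mathlib
import Pool.Agent.MaxSubP.Words
import Pool.Agent.MaxSub.Main

/-!
For every odd prime `p` the finitely generated residually finite `p`-group `W p` has a maximal
subgroup that is not normal.
-/

set_option autoImplicit false

namespace Pool.Agent.MaxSubP

variable {p : ℕ} [hp : Fact p.Prime]

abbrev PT (p : ℕ) := Equiv.Perm (List (ZMod p) × ZMod p)

def gA (i : ZMod p) : PT p :=
  ⟨fun q => (addHd i q.1, q.2), fun q => (addHd (-i) q.1, q.2),
    fun q => by simp [addHd_addHd, addHd_zero], fun q => by simp [addHd_addHd, addHd_zero]⟩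

def gB (e : ZMod p) : PT p :=
  ⟨fun q => (act e q.1, q.2), fun q => (act (-e) q.1, q.2),
    fun q => by simp [act_act, act_zero], fun q => by simp [act_act, act_zero]⟩

def gT (k : ZMod p) : PT p :=
  ⟨fun q => (q.1, q.2 + k * dd q.1), fun q => (q.1, q.2 + (-k) * dd q.1),
    fun q => by simp, fun q => by simp⟩

theorem gA_apply (i : ZMod p) (q : List (ZMod p) × ZMod p) : gA i q = (addHd i q.1, q.2) := rfl
theorem gB_apply (e : ZMod p) (q : List (ZMod p) × ZMod p) : gB e q = (act e q.1, q.2) := rfl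
theorem gT_apply (k : ZMod p) (q : List (ZMod p) × ZMod p) :
    gT k q = (q.1, q.2 + k * dd q.1) := rfl

theorem gA_inv (i : ZMod p) : (gA i)⁻¹ = gA (-i) := Equiv.ext fun _ => rfl
theorem gB_inv (e : ZMod p) : (gB e)⁻¹ = gB (-e) := Equiv.ext fun _ => rfl
theorem gT_inv (k : ZMod p) : (gT k)⁻¹ = gT (-k) := Equiv.ext fun _ => rfl

/-- generating set -/
def S (p : ℕ) [Fact p.Prime] : Set (PT p) := (Set.range gA ∪ Set.range gB) ∪ Set.range gT

theorem S_finite : (S p).Finite :=
  ((Set.finite_range _).union (Set.finite_range _)).union (Set.finite_range _)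

/-- the group -/
def W (p : ℕ) [Fact p.Prime] : Subgroup (PT p) := Subgroup.closure (S p)

theorem W_induction {P : PT p → Prop} (h1 : P 1)
    (hA : ∀ i y, P y → P (gA i * y)) (hB : ∀ e y, P y → P (gB e * y))
    (hT : ∀ k y, P y → P (gT k * y)) {g : PT p} (hg : g ∈ W p) : P g := by
  induction hg using Subgroup.closure_induction_left with
  | one => exact h1
  | mul_left s hs y _ hy =>
    rcases hs with (⟨i, rfl⟩ | ⟨e, rfl⟩) | ⟨k, rfl⟩
    · exact hA i y hy
    · exact hB e y hy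
    · exact hT k y hy
  | inv_mul_cancel s hs y _ hy =>
    rcases hs with (⟨i, rfl⟩ | ⟨e, rfl⟩) | ⟨k, rfl⟩
    · rw [gA_inv]; exact hA _ y hy
    · rw [gB_inv]; exact hB _ y hy
    · rw [gT_inv]; exact hT _ y hy

theorem length_pres {g : PT p} (hg : g ∈ W p) : ∀ q, (g q).1.length = q.1.length := by
  refine W_induction (P := fun g => ∀ q, (g q).1.length = q.1.length) ?_ ?_ ?_ ?_ hg
  · intro q; rfl
  · intro i y hy q
    rw [← hy q]; exact length_addHd _ _
  · intro e y hy q
    rw [← hy q]; exact length_act _ _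
  · intro k y hy q
    exact hy q

/-- `σ` covers the tree permutation `h` and is a translation in the second coordinate -/
def Shape (σ : PT p) (h : T p) : Prop :=
  ∃ φ : List (ZMod p) → ZMod p, ∀ q, σ q = (h q.1, q.2 + φ q.1)

theorem Shape.one : Shape (1 : PT p) 1 := ⟨fun _ => 0, fun q => by simp⟩

theorem Shape.mul {σ τ : PT p} {h k : T p} (h1 : Shape σ h) (h2 : Shape τ k) :
    Shape (σ * τ) (h * k) := by
  obtain ⟨φ, hφ⟩ := h1
  obtain ⟨ψ, hψ⟩ := h2
  refine ⟨fun l => ψ l + φ (k l), fun q => ?_⟩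
  rw [Equiv.Perm.mul_apply, hψ, hφ]
  simp [add_assoc]

theorem Shape.pow {σ : PT p} {h : T p} (h1 : Shape σ h) (n : ℕ) : Shape (σ ^ n) (h ^ n) := by
  induction n with
  | zero => simpa using Shape.one
  | succ n ih => rw [pow_succ, pow_succ]; exact ih.mul h1

theorem exists_shape {g : PT p} (hg : g ∈ W p) : ∃ h n k, Len h n k ∧ Shape g h := by
  refine W_induction (P := fun g => ∃ h n k, Len h n k ∧ Shape g h) ?_ ?_ ?_ ?_ hg
  · exact ⟨1, 0, 0, Len.one, Shape.one⟩
  · rintro i y ⟨h, n, k, hl, hs⟩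
    refine ⟨Ai i * h, n, i + k, Len.a i hl, Shape.mul ⟨fun _ => 0, fun q => ?_⟩ hs⟩
    rw [gA_apply, add_zero]; rfl
  · rintro e y ⟨h, n, k, hl, hs⟩
    refine ⟨Be e * h, n + 1, k, Len.b e hl, Shape.mul ⟨fun _ => 0, fun q => ?_⟩ hs⟩
    rw [gB_apply, add_zero]; rfl
  · rintro t y ⟨h, n, k, hl, hs⟩
    refine ⟨1 * h, n, k, by simpa using hl, Shape.mul ⟨fun l => t * dd l, fun q => ?_⟩ hs⟩
    rw [gT_apply]; rfl

theorem tors_W (h2 : p ≠ 2) {g : PT p} (hg : g ∈ W p) : ∃ m : ℕ, g ^ (p ^ m) = 1 := by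
  obtain ⟨h, n, k, hl, hs⟩ := exists_shape hg
  obtain ⟨m, hm⟩ := tors_of_len h2 n h k hl
  refine ⟨m + 1, ?_⟩
  have h1 := hs.pow (p ^ m)
  rw [hm] at h1
  obtain ⟨φ, hφ⟩ := h1
  have key : ∀ (j : ℕ) q, ((g ^ p ^ m) ^ j) q = (q.1, q.2 + j * φ q.1) := by
    intro j
    induction j with
    | zero => intro q; simp
    | succ j ih =>
      intro q
      rw [pow_succ, Equiv.Perm.mul_apply, hφ, ih]
      simp only [Equiv.Perm.coe_one, id_eq]
      congr 1
      push_cast; ring
  rw [pow_succ, pow_mul]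
  apply Equiv.ext
  intro q
  rw [key p q]
  simp

theorem W_fg : Group.FG (W p) := by
  have : Finite (S p) := (S_finite (p := p)).to_subtype
  exact Group.closure_finite_fg (S p)

theorem W_pgroup (h2 : p ≠ 2) : IsPGroup p (W p) := by
  rintro ⟨g, hg⟩
  obtain ⟨m, hm⟩ := tors_W h2 hg
  exact ⟨m, Subtype.ext (by simpa using hm)⟩

theorem W_rf (g : W p) (hg : g ≠ 1) :
    ∃ N : Subgroup (W p), N.Normal ∧ N.index ≠ 0 ∧ g ∉ N := by
  let f : W p →* PT p := (W p).subtype
  have hne : f g ≠ 1 := fun h => hg (Subtype.ext h)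
  obtain ⟨q, hq⟩ : ∃ q, f g q ≠ q := by
    by_contra hcon
    push Not at hcon
    exact hne (Equiv.ext hcon)
  let _ : MulAction (W p) (List (ZMod p) × ZMod p) := MulAction.compHom _ f
  have hfin : (MulAction.orbit (W p) q).Finite := by
    have h1 : {z : List (ZMod p) × ZMod p | z.1.length = q.1.length}.Finite := by
      have h2 := (List.finite_length_eq (ZMod p) q.1.length).prod
        (Set.finite_univ (α := ZMod p))
      refine h2.subset ?_
      intro z hz
      exact ⟨hz, Set.mem_univ _⟩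
    refine h1.subset ?_
    rintro z ⟨x, rfl⟩
    change (f x q).1.length = q.1.length
    exact length_pres x.2 q
  have hidx : (MulAction.stabilizer (W p) q).index ≠ 0 := by
    rw [MulAction.index_stabilizer]
    exact Set.ncard_ne_zero_of_mem (MulAction.mem_orbit_self q) hfin
  have _ : (MulAction.stabilizer (W p) q).FiniteIndex := ⟨hidx⟩
  refine ⟨(MulAction.stabilizer (W p) q).normalCore, inferInstance, ?_, ?_⟩
  · exact (Subgroup.finiteIndex_normalCore (MulAction.stabilizer (W p) q)).index_ne_zero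
  · intro hmem
    exact hq (MulAction.mem_stabilizer_iff.1 (Subgroup.normalCore_le _ hmem))

/-! ### words ending with many zeros -/

def zeros (p : ℕ) (n : ℕ) : List (ZMod p) := List.replicate n 0

theorem zeros_succ (n : ℕ) : zeros p (n + 1) = 0 :: zeros p n := rfl

theorem append_zeros_succ (l : List (ZMod p)) (n : ℕ) :
    l ++ zeros p (n + 1) = (l ++ [0]) ++ zeros p n := by
  rw [zeros_succ, List.append_assoc]; rfl

theorem act_zeros (e : ZMod p) (n : ℕ) : act e (zeros p n) = zeros p n := by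
  induction n with
  | zero => rfl
  | succ n ih => rw [zeros_succ, act, if_pos rfl, ih]

theorem addHd_append (i : ZMod p) (l r : List (ZMod p)) :
    addHd i ((l ++ [0]) ++ r) = addHd i (l ++ [0]) ++ r := by
  cases l <;> rfl

theorem act_append (e : ZMod p) (l : List (ZMod p)) (n : ℕ) :
    act e ((l ++ [0]) ++ zeros p n) = act e (l ++ [0]) ++ zeros p n := by
  induction l with
  | nil =>
    change act e (0 :: zeros p n) = act e [0] ++ zeros p n
    rw [act, if_pos rfl, act_zeros, act, if_pos rfl]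
    rfl
  | cons x l ih =>
    change act e (x :: ((l ++ [0]) ++ zeros p n)) = act e (x :: (l ++ [0])) ++ zeros p n
    rw [act, act, List.cons_append]
    congr 1
    split_ifs
    · exact ih
    · exact addHd_append _ _ _
    · exact addHd_append _ _ _
    · rfl

/-- words `l 0 ^ n` are mapped to words of the same kind -/
def Ev (g : PT p) : Prop :=
  ∀ l : List (ZMod p), ∃ m l', ∀ n κ, (g (l ++ zeros p (m + n), κ)).1 = l' ++ zeros p n

theorem ev {g : PT p} (hg : g ∈ W p) : Ev g := by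
  refine W_induction (P := Ev) ?_ ?_ ?_ ?_ hg
  · intro l
    exact ⟨0, l, fun n κ => by rw [zero_add]; rfl⟩
  · intro i y hy l
    obtain ⟨m, l', h⟩ := hy l
    refine ⟨m + 1, addHd i (l' ++ [0]), fun n κ => ?_⟩
    rw [Equiv.Perm.mul_apply, gA_apply, show m + 1 + n = m + (n + 1) by ring, h,
      append_zeros_succ, addHd_append]
  · intro e y hy l
    obtain ⟨m, l', h⟩ := hy l
    refine ⟨m + 1, act e (l' ++ [0]), fun n κ => ?_⟩
    rw [Equiv.Perm.mul_apply, gB_apply, show m + 1 + n = m + (n + 1) by ring, h,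
      append_zeros_succ, act_append]
  · intro k y hy l
    exact hy l

/-- the elements that do not change the second coordinate at the words `l 0 ^ n`, `n` large -/
def H (p : ℕ) [Fact p.Prime] : Subgroup (W p) where
  carrier := {g | ∀ l : List (ZMod p), ∃ N, ∀ n, N ≤ n → ∀ κ,
    ((g : PT p) (l ++ zeros p n, κ)).2 = κ}
  one_mem' := fun l => ⟨0, fun n _ κ => rfl⟩
  mul_mem' := by
    intro g h hg hh l
    obtain ⟨m, l', he⟩ := ev h.2 l
    obtain ⟨N1, h1⟩ := hh l
    obtain ⟨N2, h3⟩ := hg l'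
    refine ⟨max N1 (m + N2), fun n hn κ => ?_⟩
    obtain ⟨n', rfl⟩ := Nat.exists_eq_add_of_le (le_trans (Nat.le_add_right m N2)
      (le_trans (le_max_right _ _) hn))
    have hn1 : N1 ≤ m + n' := le_trans (le_max_left _ _) hn
    have hn2 : N2 ≤ n' := by have := le_trans (le_max_right N1 (m + N2)) hn; omega
    change ((g : PT p) ((h : PT p) (l ++ zeros p (m + n'), κ))).2 = κ
    have e : (h : PT p) (l ++ zeros p (m + n'), κ) = (l' ++ zeros p n', κ) :=
      Prod.ext (he n' κ) (h1 _ hn1 κ)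
    rw [e]
    exact h3 n' hn2 κ
  inv_mem' := by
    intro g hg l
    obtain ⟨m, l', he⟩ := ev (inv_mem g.2) l
    obtain ⟨N, h3⟩ := hg l'
    refine ⟨m + N, fun n hn κ => ?_⟩
    obtain ⟨n', rfl⟩ := Nat.exists_eq_add_of_le (le_trans (Nat.le_add_right m N) hn)
    have hn2 : N ≤ n' := by omega
    change (((g : PT p)⁻¹) (l ++ zeros p (m + n'), κ)).2 = κ
    have h4 := he n' κ
    have h5 := h3 n' hn2 (((g : PT p)⁻¹) (l ++ zeros p (m + n'), κ)).2
    rw [← h4] at h5
    have h6 : (g : PT p) (((g : PT p)⁻¹) (l ++ zeros p (m + n'), κ)) =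
      (l ++ zeros p (m + n'), κ) := Equiv.apply_symm_apply _ _
    have h7 : ((((g : PT p)⁻¹) (l ++ zeros p (m + n'), κ)).1,
      (((g : PT p)⁻¹) (l ++ zeros p (m + n'), κ)).2) =
      ((g : PT p)⁻¹) (l ++ zeros p (m + n'), κ) := rfl
    rw [h7, h6] at h5
    exact h5.symm

def eA (i : ZMod p) : W p := ⟨gA i, Subgroup.subset_closure (Or.inl (Or.inl ⟨i, rfl⟩))⟩
def eB (e : ZMod p) : W p := ⟨gB e, Subgroup.subset_closure (Or.inl (Or.inr ⟨e, rfl⟩))⟩
def eT (k : ZMod p) : W p := ⟨gT k, Subgroup.subset_closure (Or.inr ⟨k, rfl⟩)⟩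

theorem eA_mem_H (i : ZMod p) : eA i ∈ H p := fun _ => ⟨0, fun _ _ _ => rfl⟩
theorem eB_mem_H (e : ZMod p) : eB e ∈ H p := fun _ => ⟨0, fun _ _ _ => rfl⟩

theorem H_ne_top : H p ≠ ⊤ := by
  intro h
  have h1 : eT (1 : ZMod p) ∈ H p := by rw [h]; exact Subgroup.mem_top _
  obtain ⟨N, hN⟩ := h1 []
  have h3 : (0 : ZMod p) + 1 * dd ([] ++ zeros p N) = 0 := hN N le_rfl 0
  rw [List.nil_append, zeros, (rr_zeros N).1, mul_one, zero_add] at h3
  exact one_ne_zero h3

theorem eT_pow (k : ZMod p) (n : ℕ) : eT k ^ n = eT ((n : ZMod p) * k) := by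
  induction n with
  | zero =>
    apply Subtype.ext
    apply Equiv.ext
    intro q
    change q = (q.1, q.2 + ((0 : ℕ) : ZMod p) * k * dd q.1)
    simp
  | succ n ih =>
    rw [pow_succ, ih]
    apply Subtype.ext
    apply Equiv.ext
    intro q
    change (q.1, q.2 + k * dd q.1 + (n : ZMod p) * k * dd q.1) =
      (q.1, q.2 + ((n + 1 : ℕ) : ZMod p) * k * dd q.1)
    congr 1
    push_cast; ring

theorem eT_zero : eT (0 : ZMod p) = 1 := by
  have := eT_pow (0 : ZMod p) 0
  rw [pow_zero, mul_zero] at this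
  exact this.symm

theorem eT_pow_p (k : ZMod p) : eT k ^ p = 1 := by
  rw [eT_pow, CharP.cast_eq_zero, zero_mul, eT_zero]

/-- products of conjugates of `eT k` -/
def uA (k : ZMod p) : ℕ → W p
  | 0 => 1
  | n + 1 => uA k n * (eA (-(n : ZMod p)) * eT k * eA (n : ZMod p))

def uB (k : ZMod p) : ℕ → W p
  | 0 => 1
  | n + 1 => uB k n * (eB (-(n : ZMod p)) * eT k * eB (n : ZMod p))

theorem uA_apply (k : ZMod p) (n : ℕ) (q : List (ZMod p) × ZMod p) :
    (uA k n : PT p) q = (q.1, q.2 + k * ∑ i ∈ Finset.range n, dd (addHd (i : ZMod p) q.1)) := by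
  induction n generalizing q with
  | zero => simp [uA]
  | succ n ih =>
    change (uA k n : PT p) (gA (-(n : ZMod p)) (gT k (gA (n : ZMod p) q))) = _
    rw [gA_apply, gT_apply, gA_apply, ih, addHd_addHd, neg_add_cancel, addHd_zero,
      Finset.sum_range_succ]
    congr 1
    ring

theorem uB_apply (k : ZMod p) (n : ℕ) (q : List (ZMod p) × ZMod p) :
    (uB k n : PT p) q = (q.1, q.2 + k * ∑ i ∈ Finset.range n, dd (act (i : ZMod p) q.1)) := by
  induction n generalizing q with
  | zero => simp [uB]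
  | succ n ih =>
    change (uB k n : PT p) (gB (-(n : ZMod p)) (gT k (gB (n : ZMod p) q))) = _
    rw [gB_apply, gT_apply, gB_apply, ih, act_act, neg_add_cancel, act_zero,
      Finset.sum_range_succ]
    congr 1
    ring

theorem sum_range_cast (f : ZMod p → ZMod p) :
    ∑ i ∈ Finset.range p, f (i : ZMod p) = ∑ y, f y := by
  refine Finset.sum_bij' (fun i _ => (i : ZMod p)) (fun y _ => y.val) ?_ ?_ ?_ ?_ ?_
  · intro i _; exact Finset.mem_univ _
  · intro y _; exact Finset.mem_range.2 (ZMod.val_lt y)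
  · intro i hi; exact ZMod.val_cast_of_lt (Finset.mem_range.1 hi)
  · intro y _; exact ZMod.natCast_zmod_val y
  · intro i _; rfl

/-- the element of `H` which shows that the normal closure of `H` is everything -/
def u (k : ZMod p) : W p := eT (-k) * uA k p * uB (k * 2⁻¹) p

theorem u_mem_H (h2 : p ≠ 2) (k : ZMod p) : u k ∈ H p := by
  intro l
  refine ⟨1, fun n hn κ => ?_⟩
  obtain ⟨n', rfl⟩ := Nat.exists_eq_add_of_le hn
  have hw : l ++ zeros p (1 + n') = (l ++ zeros p n') ++ [0] := by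
    rw [List.append_assoc, zeros, zeros, add_comm 1 n', List.replicate_succ']
  change ((gT (-k)) ((uA k p : PT p) ((uB (k * 2⁻¹) p : PT p) (l ++ zeros p (1 + n'), κ)))).2 = κ
  rw [uB_apply, uA_apply, gT_apply, hw]
  simp only
  rw [sum_range_cast fun i => dd (addHd i ((l ++ zeros p n') ++ [0])),
    sum_range_cast fun i => dd (act i ((l ++ zeros p n') ++ [0]))]
  have key := dd_fix h2 (l ++ zeros p n')
  linear_combination k * key

theorem not_normal (h2 : p ≠ 2) (M : Subgroup (W p)) (hM : M ≠ ⊤) (hHM : H p ≤ M) :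
    ¬ M.Normal := by
  intro hN
  apply hM
  have hA : ∀ i, (QuotientGroup.mk' M) (eA i) = 1 := fun i =>
    (QuotientGroup.eq_one_iff _).2 (hHM (eA_mem_H i))
  have hB : ∀ e, (QuotientGroup.mk' M) (eB e) = 1 := fun e =>
    (QuotientGroup.eq_one_iff _).2 (hHM (eB_mem_H e))
  have huA : ∀ (k : ZMod p) (n : ℕ), (QuotientGroup.mk' M) (uA k n) =
      (QuotientGroup.mk' M) (eT k) ^ n := by
    intro k n
    induction n with
    | zero => rw [uA, map_one, pow_zero]
    | succ n ih => rw [uA, map_mul, map_mul, map_mul, hA, hA, one_mul, mul_one, ih, pow_succ]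
  have huB : ∀ (k : ZMod p) (n : ℕ), (QuotientGroup.mk' M) (uB k n) =
      (QuotientGroup.mk' M) (eT k) ^ n := by
    intro k n
    induction n with
    | zero => rw [uB, map_one, pow_zero]
    | succ n ih => rw [uB, map_mul, map_mul, map_mul, hB, hB, one_mul, mul_one, ih, pow_succ]
  have hp' : ∀ k, (QuotientGroup.mk' M) (eT k) ^ p = 1 := by
    intro k
    rw [← map_pow, eT_pow_p, map_one]
  have hT : ∀ k, (QuotientGroup.mk' M) (eT k) = 1 := by
    intro k
    have hu : (QuotientGroup.mk' M) (u (-k)) = 1 :=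
      (QuotientGroup.eq_one_iff _).2 (hHM (u_mem_H h2 (-k)))
    unfold u at hu
    rw [map_mul, map_mul, huA, huB, hp', hp', mul_one, mul_one, neg_neg] at hu
    exact hu
  rw [eq_top_iff]
  rintro ⟨g, hg⟩ -
  have hle : W p ≤ ((QuotientGroup.mk' M).ker).map (W p).subtype := by
    unfold W
    rw [Subgroup.closure_le]
    rintro s ((⟨i, rfl⟩ | ⟨e, rfl⟩) | ⟨k, rfl⟩)
    · exact ⟨eA i, hA i, rfl⟩
    · exact ⟨eB e, hB e, rfl⟩
    · exact ⟨eT k, hT k, rfl⟩
  obtain ⟨y, hy, hyg⟩ := hle hg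
  have h3 : y = ⟨g, hg⟩ := Subtype.ext hyg
  rw [← h3]
  exact (QuotientGroup.eq_one_iff _).1 hy

end Pool.Agent.MaxSubP
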