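import Mathlib

/-!
A maximal subgroup of finite index in a `p`-group is normal.
-/

set_option autoImplicit false

namespace Pool.Agent.MaxSubP

theorem normal_of_index_ne_zero {p : ℕ} [Fact p.Prime] {G : Type*} [Group G] (hG : IsPGroup p G)
    (M : Subgroup G) (hM : IsCoatom M) (hi : M.index ≠ 0) : M.Normal := by
  have hfi : M.FiniteIndex := ⟨hi⟩
  have hNf : M.normalCore.FiniteIndex := inferInstance
  have hfin : Finite (G ⧸ M.normalCore) := inferInstance
  have hQ : IsPGroup p (G ⧸ M.normalCore) := hG.to_quotient _
  have hnil : Group.IsNilpotent (G ⧸ M.normalCore) := hQ.isNilpotent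
  have hcm : (M.map (QuotientGroup.mk' M.normalCore)).comap (QuotientGroup.mk' M.normalCore)
      = M := by
    rw [Subgroup.comap_map_eq, QuotientGroup.ker_mk']
    exact sup_eq_left.2 M.normalCore_le
  have hsurj := QuotientGroup.mk'_surjective M.normalCore
  have hco : IsCoatom (M.map (QuotientGroup.mk' M.normalCore)) := by
    refine ⟨fun h => hM.1 ?_, fun K hK => ?_⟩
    · rw [h, Subgroup.comap_top] at hcm
      exact hcm.symm
    · have hlt : M < K.comap (QuotientGroup.mk' M.normalCore) := by
        have h0 := (Subgroup.comap_lt_comap_of_surjective hsurj).2 hK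
        rwa [hcm] at h0
      have h1 := hM.2 _ hlt
      rw [← Subgroup.map_comap_eq_self_of_surjective hsurj K, h1]
      exact Subgroup.map_top_of_surjective _ hsurj
  have hn : (M.map (QuotientGroup.mk' M.normalCore)).Normal :=
    Subgroup.NormalizerCondition.normal_of_coatom _ Group.normalizerCondition_of_isNilpotent hco
  have h3 := hn.comap (QuotientGroup.mk' M.normalCore)
  rwa [hcm] at h3

end Pool.Agent.MaxSubP
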